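import Pool.Agent.Helper82.NX3.BadNatCore
import Pool.Agent.Helper51.NX3.Incr

/-!
# Project NX2, module C6: bad sets at the natural positions
-/

set_option autoImplicit false

open Finset
open scoped BigOperators

namespace Pool.Agent.Helper57.NX3

noncomputable section

theorem bad_nat (M M' : ℕ) (hM : 1 ≤ M) (hM' : 1 ≤ M') (hMM : M ∣ M')
    (hpf : M'.primeFactors = M.primeFactors) (δ κ θ : ℝ) (hδ : 0 < δ) (hκ : 0 < κ) (hθ : 0 < θ) :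
    ∃ z0 : ℕ, ∀ z : ℕ, z0 ≤ z → ∀ A : Finset ℕ, PS z A → ∀ β β1 b : ℕ, β1 ≤ b → b ≤ β → β ≤ z →
    ((2 : ℝ) ^ z) ^ θ ≤ 2 ^ β1 → En z A M' β1 ≤ En z A M β + κ →
    ∀ v : ℕ, M ∣ v → (v : ℝ) * ((2 : ℝ) ^ z) ^ θ ≤ 2 ^ β →
    (((range (2 ^ z)).filter fun x => x.Coprime M ∧
      δ / 4 ≤ (M.totient : ℝ) / M * cd (FA z A) M β x ∧
      (M.totient : ℝ) / M * cd (FA z A) M' b (x + v) < δ / 8).card : ℝ) ≤
      256 * κ / δ ^ 2 * ((M.totient : ℝ) / M) * 2 ^ z :=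
  Helper82.NX3.bad_nat_of incr en_mono M M' hM hM' hMM (phi_eq hM hM' hpf) δ κ θ hδ hκ hθ

end

end Pool.Agent.Helper57.NX3
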