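import Pool.Agent.Helper82.NX3.MainCore
import Pool.Agent.Helper82.NX3.BadNat
import Pool.Agent.Helper85.NX3.GoodSet
import Pool.Agent.Helper52.NX3.BadReal

/-!
# Project NX2, module C8: the main term
-/

set_option autoImplicit false

open Finset
open scoped BigOperators

namespace Pool.Agent.Helper57.NX3

noncomputable section

theorem main_fixed (ι ρ : Type) [Fintype ι] [Nonempty ι] [Fintype ρ] (δ : ℝ) (hδ : 0 < δ)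
    (hδ1 : δ ≤ 1) :
    ∃ κ : ℝ, 0 < κ ∧ ∃ τ1 : ℝ, 0 < τ1 ∧ ∀ M M' : ℕ, 1 ≤ M → 1 ≤ M' → M ∣ M' →
    M'.primeFactors = M.primeFactors → ∀ θ : ℝ, 0 < θ → ∃ z0 : ℕ, ∀ z : ℕ, z0 ≤ z →
    ∀ A : Finset ℕ, PS z A → δ * ((2 : ℝ) ^ z / Real.log ((2 : ℝ) ^ z)) ≤ A.card →
    ∀ β β1 : ℕ, β1 ≤ β → β ≤ z → ((2 : ℝ) ^ z) ^ θ ≤ 2 ^ β1 →
    En z A M' β1 + En z A 1 β1 ≤ En z A M β + En z A 1 β + κ →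
    ∀ b v : ι → ℕ, (∀ i, β1 ≤ b i ∧ b i ≤ β ∧ M ∣ v i ∧
      (v i : ℝ) * ((2 : ℝ) ^ z) ^ θ ≤ 2 ^ β) →
    ∀ L w : ρ → ℕ, (∀ j, (w j : ℝ) * ((2 : ℝ) ^ z) ^ θ ≤ 2 ^ β ∧
      (L j : ℝ) * ((2 : ℝ) ^ z) ^ θ ≤ 2 ^ β ∧ 2 ^ β1 * ((2 : ℝ) ^ z) ^ θ ≤ L j) →
    τ1 ≤ (∑ x ∈ range (2 ^ z), (∏ i, cd (FA z A) M' (b i) (x + v i)) *
      ∏ j, AN (L j) (FA z A) (x + w j)) / 2 ^ z :=
  Helper82.NX3.main_fixed_of good_set en_mono bad_nat bad_real ι ρ δ hδ hδ1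

end

end Pool.Agent.Helper57.NX3
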