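import Pool.Agent.Helper57.NX3.Defs

/-!
# Project NX2, module C6: bad sets at the natural positions (core)
-/

set_option autoImplicit false

open Finset
open scoped BigOperators

namespace Pool.Agent.Helper82.NX3

open Pool.Agent.Helper57.NX3

noncomputable section

/-- the statement `incr` of C4 -/
def IncrS : Prop := ∀ (M M' : ℕ) (_ : 1 ≤ M) (_ : 1 ≤ M') (_ : M ∣ M') (θ κ : ℝ) (_ : 0 < θ)
    (_ : 0 < κ), ∃ z0 : ℕ, ∀ z : ℕ, z0 ≤ z → ∀ A : Finset ℕ, PS z A → ∀ b b' : ℕ, b' ≤ b →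
    b ≤ z → ((2 : ℝ) ^ z) ^ θ ≤ 2 ^ b' →
    (∑ x ∈ range (2 ^ z), (cd (FA z A) M' b' x - cd (FA z A) M b x) ^ 2) / 2 ^ z ≤
      (∑ x ∈ range (2 ^ z), cd (FA z A) M' b' x ^ 2) / 2 ^ z -
        (∑ x ∈ range (2 ^ z), cd (FA z A) M b x ^ 2) / 2 ^ z + κ

/-- the statement `en_mono` of C4 -/
def EnMonoS : Prop := ∀ (M M' : ℕ) (_ : 1 ≤ M) (_ : 1 ≤ M') (_ : M ∣ M')
    (_ : M'.primeFactors = M.primeFactors) (θ κ : ℝ) (_ : 0 < θ)
    (_ : 0 < κ), ∃ z0 : ℕ, ∀ z : ℕ, z0 ≤ z → ∀ A : Finset ℕ, PS z A → ∀ b b' : ℕ, b' ≤ b →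
    b ≤ z → ((2 : ℝ) ^ z) ^ θ ≤ 2 ^ b' → En z A M b ≤ En z A M' b' + κ

theorem exists_zpow (θ C : ℝ) (hθ : 0 < θ) : ∃ z0 : ℕ, ∀ z : ℕ, z0 ≤ z →
    C ≤ ((2 : ℝ) ^ z) ^ θ := by
  have h1 : Filter.Tendsto (fun z : ℕ => ((2 : ℝ) ^ z) ^ θ) Filter.atTop Filter.atTop :=
    (tendsto_rpow_atTop hθ).comp (tendsto_pow_atTop_atTop_of_one_lt (by norm_num))
  obtain ⟨z0, h⟩ := Filter.eventually_atTop.mp (h1.eventually_ge_atTop C)
  exact ⟨z0, h⟩

theorem phi_ratio_pos {M : ℕ} (hM : 1 ≤ M) : 0 < (M.totient : ℝ) / M := by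
  have h1 : 0 < M.totient := Nat.totient_pos.mpr hM
  have h2 : (0 : ℝ) < M := by exact_mod_cast hM
  have h3 : (0 : ℝ) < M.totient := by exact_mod_cast h1
  positivity

theorem phi_ratio_le_one {M : ℕ} (hM : 1 ≤ M) : (M.totient : ℝ) / M ≤ 1 := by
  have h2 : (0 : ℝ) < M := by exact_mod_cast hM
  rw [div_le_one h2]
  exact_mod_cast Nat.totient_le M

theorem cd_congr' (f : ℕ → ℝ) {M b x x' : ℕ} (h1 : x / 2 ^ b = x' / 2 ^ b)
    (h2 : x ≡ x' [MOD M]) : cd f M b x = cd f M b x' := by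
  unfold cd blo
  rw [h1]
  congr 1
  refine Finset.sum_congr ?_ fun _ _ => rfl
  refine Finset.filter_congr fun y _ => ?_
  exact ⟨fun h => h.trans h2, fun h => h.trans h2.symm⟩

/-- few `x < 2^z` change the dyadic block under the shift by `v` -/
theorem card_change (z β v : ℕ) (hβ : β ≤ z) :
    (((range (2 ^ z)).filter fun x => (x + v) / 2 ^ β ≠ x / 2 ^ β).card : ℝ) ≤
      v * (2 : ℝ) ^ z / 2 ^ β := by
  have h2 : 0 < 2 ^ β := by positivity
  have hsub : (range (2 ^ z)).filter (fun x => (x + v) / 2 ^ β ≠ x / 2 ^ β) ⊆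
      (range (2 ^ (z - β))).biUnion fun j => Ico (2 ^ β * (j + 1) - v) (2 ^ β * (j + 1)) := by
    intro x hx
    rw [mem_filter, mem_range] at hx
    obtain ⟨hx1, hx2⟩ := hx
    rw [mem_biUnion]
    refine ⟨x / 2 ^ β, ?_, ?_⟩
    · rw [mem_range, Nat.div_lt_iff_lt_mul h2, ← pow_add, Nat.sub_add_cancel hβ]
      exact hx1
    · have h3 : x / 2 ^ β + 1 ≤ (x + v) / 2 ^ β := by
        have := Nat.div_le_div_right (c := 2 ^ β) (Nat.le_add_right x v)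
        omega
      have h4 : 2 ^ β * (x / 2 ^ β + 1) ≤ x + v := by
        rw [Nat.le_div_iff_mul_le h2] at h3
        rw [mul_comm]
        exact h3
      have h5 : x < 2 ^ β * (x / 2 ^ β + 1) := Nat.lt_mul_div_succ x h2
      rw [mem_Ico]
      omega
  have hcard := (card_le_card hsub).trans card_biUnion_le
  have hsum : ∑ j ∈ range (2 ^ (z - β)), (Ico (2 ^ β * (j + 1) - v) (2 ^ β * (j + 1))).card ≤
      2 ^ (z - β) * v := by
    calc ∑ j ∈ range (2 ^ (z - β)), (Ico (2 ^ β * (j + 1) - v) (2 ^ β * (j + 1))).card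
        ≤ ∑ _j ∈ range (2 ^ (z - β)), v := by
          refine sum_le_sum fun j _ => ?_
          rw [Nat.card_Ico]
          omega
      _ = 2 ^ (z - β) * v := by rw [sum_const, card_range, smul_eq_mul]
  have h6 := hcard.trans hsum
  have h7 : (((range (2 ^ z)).filter fun x => (x + v) / 2 ^ β ≠ x / 2 ^ β).card : ℝ) ≤
      (2 : ℝ) ^ (z - β) * v := by exact_mod_cast h6
  refine h7.trans (le_of_eq ?_)
  rw [pow_sub₀ _ (by norm_num) hβ]
  field_simp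

theorem bad_nat_of (hI : IncrS) (hE : EnMonoS) (M M' : ℕ) (hM : 1 ≤ M) (hM' : 1 ≤ M')
    (hMM : M ∣ M') (hphi : (M'.totient : ℝ) / M' = (M.totient : ℝ) / M)
    (δ κ θ : ℝ) (hδ : 0 < δ) (hκ : 0 < κ) (hθ : 0 < θ) :
    ∃ z0 : ℕ, ∀ z : ℕ, z0 ≤ z → ∀ A : Finset ℕ, PS z A → ∀ β β1 b : ℕ, β1 ≤ b → b ≤ β → β ≤ z →
    ((2 : ℝ) ^ z) ^ θ ≤ 2 ^ β1 → En z A M' β1 ≤ En z A M β + κ →
    ∀ v : ℕ, M ∣ v → (v : ℝ) * ((2 : ℝ) ^ z) ^ θ ≤ 2 ^ β →
    (((range (2 ^ z)).filter fun x => x.Coprime M ∧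
      δ / 4 ≤ (M.totient : ℝ) / M * cd (FA z A) M β x ∧
      (M.totient : ℝ) / M * cd (FA z A) M' b (x + v) < δ / 8).card : ℝ) ≤
      256 * κ / δ ^ 2 * ((M.totient : ℝ) / M) * 2 ^ z := by
  set kap : ℝ := (M.totient : ℝ) / M with hkap
  have hk0 : 0 < kap := phi_ratio_pos hM
  have hk1 : kap ≤ 1 := phi_ratio_le_one hM
  obtain ⟨z1, h1⟩ := hI M M' hM hM' hMM θ κ hθ hκ
  obtain ⟨z2, h2⟩ := hE M' M' hM' hM' dvd_rfl rfl θ κ hθ hκ
  obtain ⟨z3, h3⟩ := exists_zpow θ (δ ^ 2 / (64 * κ * kap)) hθ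
  refine ⟨max z1 (max z2 z3), ?_⟩
  intro z hz A hA β β1 b hb1 hb2 hβ hθ1 hEn v hv hvθ
  have hz1 := h1 z ((le_max_left _ _).trans hz) A hA β b hb2 hβ
    (hθ1.trans (pow_le_pow_right₀ (by norm_num) hb1))
  have hz2 := h2 z ((le_max_left _ _).trans ((le_max_right _ _).trans hz)) A hA b β1 hb1
    (hb2.trans hβ) hθ1
  have hz3 := h3 z ((le_max_right _ _).trans ((le_max_right _ _).trans hz))
  have hZ : (0 : ℝ) < 2 ^ z := by positivity
  have hZθ : 0 < ((2 : ℝ) ^ z) ^ θ := Real.rpow_pos_of_pos hZ _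
  set F := FA z A with hF
  set S : ℝ := ∑ x ∈ range (2 ^ z), (cd F M' b x - cd F M β x) ^ 2 with hS
  -- the energy
  have hS1 : kap * (S / 2 ^ z) ≤ 3 * κ := by
    have h4 := mul_le_mul_of_nonneg_left hz1 hk0.le
    have h5 : kap * ((∑ x ∈ range (2 ^ z), cd F M' b x ^ 2) / 2 ^ z) = En z A M' b := by
      rw [En, hphi]
    have h6 : kap * ((∑ x ∈ range (2 ^ z), cd F M β x ^ 2) / 2 ^ z) = En z A M β := rfl
    have h7 : kap * κ ≤ κ := mul_le_of_le_one_left hκ.le hk1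
    rw [mul_add, mul_sub, h5, h6] at h4
    linarith
  -- splitting
  set B := (range (2 ^ z)).filter fun x => x.Coprime M ∧
      δ / 4 ≤ kap * cd F M β x ∧ kap * cd F M' b (x + v) < δ / 8 with hB
  set B1 := B.filter fun x => (x + v) / 2 ^ β = x / 2 ^ β with hB1
  set B2 := (range (2 ^ z)).filter fun x => (x + v) / 2 ^ β ≠ x / 2 ^ β with hB2
  have hsub : B ⊆ B1 ∪ B2 := by
    intro x hx
    rw [mem_union]
    by_cases h : (x + v) / 2 ^ β = x / 2 ^ β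
    · left
      exact mem_filter.mpr ⟨hx, h⟩
    · right
      exact mem_filter.mpr ⟨(mem_filter.mp hx).1, h⟩
  have hcard : (B.card : ℝ) ≤ B1.card + B2.card := by
    exact_mod_cast (card_le_card hsub).trans (card_union_le _ _)
  -- the points near the end of a block
  have hc2 : (B2.card : ℝ) ≤ 64 * κ / δ ^ 2 * kap * 2 ^ z := by
    refine (card_change z β v hβ).trans ?_
    have h4 : (v : ℝ) / 2 ^ β ≤ 64 * κ / δ ^ 2 * kap := by
      rw [div_le_iff₀ (by positivity)]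
      have h5 : (v : ℝ) * (δ ^ 2 / (64 * κ * kap)) ≤ 2 ^ β :=
        (mul_le_mul_of_nonneg_left hz3 (Nat.cast_nonneg v)).trans hvθ
      have h6 : (v : ℝ) = (v : ℝ) * (δ ^ 2 / (64 * κ * kap)) * (64 * κ / δ ^ 2 * kap) := by
        field_simp
      rw [h6, mul_comm (64 * κ / δ ^ 2 * kap)]
      exact mul_le_mul_of_nonneg_right h5 (by positivity)
    calc (v : ℝ) * 2 ^ z / 2 ^ β = (v : ℝ) / 2 ^ β * 2 ^ z := by ring
      _ ≤ _ := mul_le_mul_of_nonneg_right h4 hZ.le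
  -- Markov
  have hc1 : (B1.card : ℝ) * (δ / 8) ^ 2 ≤ kap ^ 2 * S := by
    have h4 : (B1.card : ℝ) * (δ / 8) ^ 2 ≤
        ∑ x ∈ B1, kap ^ 2 * (cd F M' b (x + v) - cd F M β (x + v)) ^ 2 := by
      rw [← nsmul_eq_mul]
      refine card_nsmul_le_sum _ _ _ fun x hx => ?_
      rw [hB1, mem_filter, hB, mem_filter] at hx
      obtain ⟨⟨hx1, _, hx3, hx4⟩, hx5⟩ := hx
      have h5 : cd F M β (x + v) = cd F M β x := by
        refine cd_congr' F hx5 ?_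
        obtain ⟨u, rfl⟩ := hv
        exact (Nat.ModEq.refl x).add (Nat.modEq_zero_iff_dvd.mpr (dvd_mul_right M u)) |>.trans
          (by rw [add_zero])
      rw [h5, ← mul_pow, ← sq_abs (kap * _)]
      refine pow_le_pow_left₀ (by positivity) ?_ 2
      rw [← abs_neg, ← mul_neg, neg_sub, mul_sub]
      exact le_trans (by linarith) (le_abs_self _)
    refine h4.trans ?_
    rw [← mul_sum]
    refine mul_le_mul_of_nonneg_left ?_ (by positivity)
    rw [hS]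
    have h6 : ∑ x ∈ B1, (cd F M' b (x + v) - cd F M β (x + v)) ^ 2 =
        ∑ y ∈ B1.map (addRightEmbedding v), (cd F M' b y - cd F M β y) ^ 2 := by
      rw [sum_map]
      rfl
    rw [h6]
    refine sum_le_sum_of_subset_of_nonneg ?_ fun _ _ _ => sq_nonneg _
    intro y hy
    rw [mem_map] at hy
    obtain ⟨x, hx, rfl⟩ := hy
    rw [hB1, mem_filter, hB, mem_filter, mem_range] at hx
    obtain ⟨⟨hx1, _⟩, hx5⟩ := hx
    rw [mem_range, addRightEmbedding_apply]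
    have h7 : x / 2 ^ β < 2 ^ (z - β) := by
      rw [Nat.div_lt_iff_lt_mul (by positivity), ← pow_add, Nat.sub_add_cancel hβ]
      exact hx1
    rw [← hx5, Nat.div_lt_iff_lt_mul (by positivity), ← pow_add, Nat.sub_add_cancel hβ] at h7
    exact h7
  have hc1' : (B1.card : ℝ) ≤ 192 * κ / δ ^ 2 * kap * 2 ^ z := by
    have h4 : kap ^ 2 * S ≤ kap * (3 * κ) * 2 ^ z := by
      have h5 : S = S / 2 ^ z * 2 ^ z := by field_simp
      calc kap ^ 2 * S = kap * (kap * (S / 2 ^ z)) * 2 ^ z := by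
            rw [h5]
            field_simp
        _ ≤ kap * (3 * κ) * 2 ^ z := by
            refine mul_le_mul_of_nonneg_right (mul_le_mul_of_nonneg_left hS1 hk0.le) hZ.le
    have h6 : (B1.card : ℝ) * (δ / 8) ^ 2 ≤ kap * (3 * κ) * 2 ^ z := hc1.trans h4
    have h7 : (B1.card : ℝ) = (B1.card : ℝ) * (δ / 8) ^ 2 * (64 / δ ^ 2) := by
      field_simp
      norm_num
    rw [h7]
    refine (mul_le_mul_of_nonneg_right h6 (by positivity)).trans (le_of_eq ?_)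
    ring
  calc (B.card : ℝ) ≤ B1.card + B2.card := hcard
    _ ≤ 192 * κ / δ ^ 2 * kap * 2 ^ z + 64 * κ / δ ^ 2 * kap * 2 ^ z := add_le_add hc1' hc2
    _ = 256 * κ / δ ^ 2 * kap * 2 ^ z := by ring

end

end Pool.Agent.Helper82.NX3
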