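import Pool.Agent.Helper82.NX3.BadNatCore

/-!
# Project NX2, module C8: the main term (core)
-/

set_option autoImplicit false

open Finset
open scoped BigOperators

namespace Pool.Agent.Helper82.NX3

open Pool.Agent.Helper57.NX3

noncomputable section

/-- the good set -/
def gset (z : ℕ) (A : Finset ℕ) (M β : ℕ) (δ : ℝ) : Finset ℕ :=
  (range (2 ^ z)).filter fun x => x.Coprime M ∧
    δ / 4 ≤ (M.totient : ℝ) / M * cd (FA z A) M β x ∧ δ / 4 ≤ cd (FA z A) 1 β x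

/-- the statement `good_set` -/
def GoodSetS : Prop := ∃ ω : ℝ, 0 < ω ∧ ∀ δ : ℝ, 0 < δ → δ ≤ 1 → ∀ M : ℕ, 1 ≤ M → ∀ θ : ℝ, 0 < θ →
    ∃ z0 : ℕ, ∀ z : ℕ, z0 ≤ z → ∀ A : Finset ℕ, PS z A →
    δ * ((2 : ℝ) ^ z / Real.log ((2 : ℝ) ^ z)) ≤ A.card →
    ∀ β : ℕ, β ≤ z → ((2 : ℝ) ^ z) ^ θ ≤ 2 ^ β →
    ω * δ ^ 2 * ((M.totient : ℝ) / M) * 2 ^ z ≤ (gset z A M β δ).card

/-- the statement `bad_nat` -/
def BadNatS : Prop := ∀ (M M' : ℕ) (_ : 1 ≤ M) (_ : 1 ≤ M') (_ : M ∣ M')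
    (_ : M'.primeFactors = M.primeFactors) (δ κ θ : ℝ) (_ : 0 < δ) (_ : 0 < κ) (_ : 0 < θ),
    ∃ z0 : ℕ, ∀ z : ℕ, z0 ≤ z → ∀ A : Finset ℕ, PS z A → ∀ β β1 b : ℕ, β1 ≤ b → b ≤ β → β ≤ z →
    ((2 : ℝ) ^ z) ^ θ ≤ 2 ^ β1 → En z A M' β1 ≤ En z A M β + κ →
    ∀ v : ℕ, M ∣ v → (v : ℝ) * ((2 : ℝ) ^ z) ^ θ ≤ 2 ^ β →
    (((range (2 ^ z)).filter fun x => x.Coprime M ∧
      δ / 4 ≤ (M.totient : ℝ) / M * cd (FA z A) M β x ∧
      (M.totient : ℝ) / M * cd (FA z A) M' b (x + v) < δ / 8).card : ℝ) ≤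
      256 * κ / δ ^ 2 * ((M.totient : ℝ) / M) * 2 ^ z

/-- the statement `bad_real` -/
def BadRealS : Prop := ∀ (M : ℕ) (_ : 1 ≤ M) (δ κ θ : ℝ) (_ : 0 < δ) (_ : 0 < κ) (_ : 0 < θ),
    ∃ z0 : ℕ, ∀ z : ℕ, z0 ≤ z → ∀ A : Finset ℕ, PS z A → ∀ β β1 : ℕ, β1 ≤ β → β ≤ z →
    ((2 : ℝ) ^ z) ^ θ ≤ 2 ^ β1 → En z A 1 β1 ≤ En z A 1 β + κ →
    ∀ v L : ℕ, (v : ℝ) * ((2 : ℝ) ^ z) ^ θ ≤ 2 ^ β → (L : ℝ) * ((2 : ℝ) ^ z) ^ θ ≤ 2 ^ β →
    2 ^ β1 * ((2 : ℝ) ^ z) ^ θ ≤ L →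
    (((range (2 ^ z)).filter fun x => x.Coprime M ∧ δ / 4 ≤ cd (FA z A) 1 β x ∧
      AN L (FA z A) (x + v) < δ / 8).card : ℝ) ≤
      512 * κ / δ ^ 2 * ((M.totient : ℝ) / M) * 2 ^ z

theorem FA_nonneg' (z : ℕ) (A : Finset ℕ) (x : ℕ) : 0 ≤ FA z A x := by
  unfold FA
  split_ifs
  · exact Real.log_nonneg (one_le_pow₀ (by norm_num))
  · exact le_rfl

theorem cd_nonneg' {f : ℕ → ℝ} (hf : ∀ x, 0 ≤ f x) (M b x : ℕ) : 0 ≤ cd f M b x := by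
  unfold cd
  exact mul_nonneg (by positivity) (sum_nonneg fun _ _ => hf _)

theorem AN_nonneg' {f : ℕ → ℝ} (hf : ∀ x, 0 ≤ f x) (L x : ℕ) : 0 ≤ AN L f x := by
  unfold AN
  exact div_nonneg (sum_nonneg fun _ _ => hf _) (Nat.cast_nonneg _)

theorem main_fixed_of (hG : GoodSetS) (hE : EnMonoS) (hBN : BadNatS) (hBR : BadRealS)
    (ι ρ : Type) [Fintype ι] [Nonempty ι] [Fintype ρ] (δ : ℝ) (hδ : 0 < δ)
    (hδ1 : δ ≤ 1) :
    ∃ κ : ℝ, 0 < κ ∧ ∃ τ1 : ℝ, 0 < τ1 ∧ ∀ M M' : ℕ, 1 ≤ M → 1 ≤ M' → M ∣ M' →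
    M'.primeFactors = M.primeFactors → ∀ θ : ℝ, 0 < θ → ∃ z0 : ℕ, ∀ z : ℕ, z0 ≤ z →
    ∀ A : Finset ℕ, PS z A → δ * ((2 : ℝ) ^ z / Real.log ((2 : ℝ) ^ z)) ≤ A.card →
    ∀ β β1 : ℕ, β1 ≤ β → β ≤ z → ((2 : ℝ) ^ z) ^ θ ≤ 2 ^ β1 →
    En z A M' β1 + En z A 1 β1 ≤ En z A M β + En z A 1 β + κ →
    ∀ b v : ι → ℕ, (∀ i, β1 ≤ b i ∧ b i ≤ β ∧ M ∣ v i ∧
      (v i : ℝ) * ((2 : ℝ) ^ z) ^ θ ≤ 2 ^ β) →
    ∀ L w : ρ → ℕ, (∀ j, (w j : ℝ) * ((2 : ℝ) ^ z) ^ θ ≤ 2 ^ β ∧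
      (L j : ℝ) * ((2 : ℝ) ^ z) ^ θ ≤ 2 ^ β ∧ 2 ^ β1 * ((2 : ℝ) ^ z) ^ θ ≤ L j) →
    τ1 ≤ (∑ x ∈ range (2 ^ z), (∏ i, cd (FA z A) M' (b i) (x + v i)) *
      ∏ j, AN (L j) (FA z A) (x + w j)) / 2 ^ z := by
  obtain ⟨ω, hω, hgood⟩ := hG
  set m : ℝ := (Fintype.card ι : ℝ) + Fintype.card ρ + 1 with hm
  have hm0 : 0 < m := by positivity
  set κ : ℝ := ω * δ ^ 4 / (4096 * m) with hκ
  have hκ0 : 0 < κ := by positivity
  set τ1 : ℝ := ω * δ ^ 2 / 2 * (δ / 8) ^ (Fintype.card ι + Fintype.card ρ) with hτ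
  have hτ0 : 0 < τ1 := by positivity
  refine ⟨κ, hκ0, τ1, hτ0, ?_⟩
  intro M M' hM hM' hMM hpf θ hθ
  set kap : ℝ := (M.totient : ℝ) / M with hkap
  have hk0 : 0 < kap := phi_ratio_pos hM
  have hk1 : kap ≤ 1 := phi_ratio_le_one hM
  obtain ⟨z1, h1⟩ := hgood δ hδ hδ1 M hM θ hθ
  obtain ⟨z2, h2⟩ := hE 1 1 le_rfl le_rfl dvd_rfl rfl θ κ hθ hκ0
  obtain ⟨z3, h3⟩ := hE M M' hM hM' hMM hpf θ κ hθ hκ0
  obtain ⟨z4, h4⟩ := hBN M M' hM hM' hMM hpf δ (2 * κ) θ hδ (by positivity) hθ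
  obtain ⟨z5, h5⟩ := hBR M hM δ (2 * κ) θ hδ (by positivity) hθ
  refine ⟨max z1 (max z2 (max z3 (max z4 z5))), ?_⟩
  intro z hz A hA hcA β β1 hβ1 hβ hθ1 hEn b v hbv L w hLw
  have hz' : z1 ≤ z ∧ z2 ≤ z ∧ z3 ≤ z ∧ z4 ≤ z ∧ z5 ≤ z := by
    simpa only [max_le_iff] using hz
  obtain ⟨hz1, hz2, hz3, hz4, hz5⟩ := hz'
  have hθβ : ((2 : ℝ) ^ z) ^ θ ≤ 2 ^ β := hθ1.trans (pow_le_pow_right₀ (by norm_num) hβ1)
  have hZ : (0 : ℝ) < 2 ^ z := by positivity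
  have g1 := h1 z hz1 A hA hcA β hβ hθβ
  have g2 := h2 z hz2 A hA β β1 hβ1 hβ hθ1
  have g3 := h3 z hz3 A hA β β1 hβ1 hβ hθ1
  have e1 : En z A M' β1 ≤ En z A M β + 2 * κ := by linarith
  have e2 : En z A 1 β1 ≤ En z A 1 β + 2 * κ := by linarith
  set F := FA z A with hF
  set G := gset z A M β δ with hGd
  -- the bad sets
  set BN : ι → Finset ℕ := fun i => (range (2 ^ z)).filter fun x => x.Coprime M ∧
      δ / 4 ≤ kap * cd F M β x ∧ kap * cd F M' (b i) (x + v i) < δ / 8 with hBNd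
  set BR : ρ → Finset ℕ := fun j => (range (2 ^ z)).filter fun x => x.Coprime M ∧
      δ / 4 ≤ cd F 1 β x ∧ AN (L j) F (x + w j) < δ / 8 with hBRd
  have hBNc : ∀ i, ((BN i).card : ℝ) ≤ 1024 * κ / δ ^ 2 * kap * 2 ^ z := by
    intro i
    have := h4 z hz4 A hA β β1 (b i) (hbv i).1 (hbv i).2.1 hβ hθ1 e1 (v i) (hbv i).2.2.1
      (hbv i).2.2.2
    refine this.trans ?_
    refine mul_le_mul_of_nonneg_right (mul_le_mul_of_nonneg_right
      (div_le_div_of_nonneg_right (by linarith) (by positivity)) hk0.le) hZ.le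
  have hBRc : ∀ j, ((BR j).card : ℝ) ≤ 1024 * κ / δ ^ 2 * kap * 2 ^ z := by
    intro j
    have := h5 z hz5 A hA β β1 hβ1 hβ hθ1 e2 (w j) (L j) (hLw j).1 (hLw j).2.1 (hLw j).2.2
    refine this.trans ?_
    refine mul_le_mul_of_nonneg_right (mul_le_mul_of_nonneg_right
      (div_le_div_of_nonneg_right (by linarith) (by positivity)) hk0.le) hZ.le
  set R := G \ (univ.biUnion BN ∪ univ.biUnion BR) with hR
  have hRc : ω * δ ^ 2 / 2 * kap * 2 ^ z ≤ R.card := by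
    have c1 : (G.card : ℝ) ≤ R.card + (univ.biUnion BN ∪ univ.biUnion BR).card := by
      have : G.card ≤ R.card + (univ.biUnion BN ∪ univ.biUnion BR).card := by
        rw [hR]
        exact Finset.card_le_card_sdiff_add_card
      exact_mod_cast this
    have c2 : ((univ.biUnion BN ∪ univ.biUnion BR).card : ℝ) ≤
        (univ.biUnion BN).card + (univ.biUnion BR).card := by
      exact_mod_cast card_union_le _ _
    have c3 : ((univ.biUnion BN).card : ℝ) ≤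
        Fintype.card ι * (1024 * κ / δ ^ 2 * kap * 2 ^ z) := by
      have : ((univ.biUnion BN).card : ℝ) ≤ ∑ i, ((BN i).card : ℝ) := by
        exact_mod_cast card_biUnion_le
      refine this.trans ((sum_le_sum fun i _ => hBNc i).trans (le_of_eq ?_))
      rw [sum_const, card_univ, nsmul_eq_mul]
    have c4 : ((univ.biUnion BR).card : ℝ) ≤
        Fintype.card ρ * (1024 * κ / δ ^ 2 * kap * 2 ^ z) := by
      have : ((univ.biUnion BR).card : ℝ) ≤ ∑ j, ((BR j).card : ℝ) := by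
        exact_mod_cast card_biUnion_le
      refine this.trans ((sum_le_sum fun j _ => hBRc j).trans (le_of_eq ?_))
      rw [sum_const, card_univ, nsmul_eq_mul]
    have c5 : ((Fintype.card ι : ℝ) + Fintype.card ρ) * (1024 * κ / δ ^ 2 * kap * 2 ^ z) ≤
        ω * δ ^ 2 / 4 * kap * 2 ^ z := by
      have c6 : m * (1024 * κ / δ ^ 2 * kap * 2 ^ z) = ω * δ ^ 2 / 4 * kap * 2 ^ z := by
        rw [hκ]
        field_simp
        norm_num
      rw [← c6]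
      refine mul_le_mul_of_nonneg_right (by rw [hm]; linarith) (by positivity)
    have c7 : 0 < ω * δ ^ 2 * kap * 2 ^ z := by positivity
    have c8 : ω * δ ^ 2 * kap * 2 ^ z ≤ G.card := g1
    linarith
  -- the pointwise lower bound
  have hpt : ∀ x ∈ R, (δ / 8) ^ (Fintype.card ι + Fintype.card ρ) / kap ≤
      (∏ i, cd F M' (b i) (x + v i)) * ∏ j, AN (L j) F (x + w j) := by
    intro x hx
    rw [hR, mem_sdiff, mem_union, not_or] at hx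
    obtain ⟨hx1, hx2, hx3⟩ := hx
    rw [mem_biUnion] at hx2 hx3
    push Not at hx2 hx3
    rw [hGd, gset, mem_filter] at hx1
    obtain ⟨hx4, hx5, hx6, hx7⟩ := hx1
    have d1 : ∀ i, δ / 8 / kap ≤ cd F M' (b i) (x + v i) := by
      intro i
      have := hx2 i (mem_univ i)
      rw [hBNd, mem_filter] at this
      have h8 : δ / 8 ≤ kap * cd F M' (b i) (x + v i) := by
        by_contra h9
        exact this ⟨hx4, hx5, hx6, not_le.mp h9⟩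
      rwa [div_le_iff₀' hk0]
    have d2 : ∀ j, δ / 8 ≤ AN (L j) F (x + w j) := by
      intro j
      have := hx3 j (mem_univ j)
      rw [hBRd, mem_filter] at this
      by_contra h9
      exact this ⟨hx4, hx5, hx7, not_le.mp h9⟩
    have d3 : (δ / 8 / kap) ^ Fintype.card ι ≤ ∏ i, cd F M' (b i) (x + v i) := by
      have := prod_le_prod (s := (univ : Finset ι)) (f := fun _ => δ / 8 / kap)
        (g := fun i => cd F M' (b i) (x + v i)) (fun _ _ => by positivity) fun i _ => d1 i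
      rwa [prod_const, card_univ] at this
    have d4 : (δ / 8) ^ Fintype.card ρ ≤ ∏ j, AN (L j) F (x + w j) := by
      have := prod_le_prod (s := (univ : Finset ρ)) (f := fun _ => δ / 8)
        (g := fun j => AN (L j) F (x + w j)) (fun _ _ => by positivity) fun j _ => d2 j
      rwa [prod_const, card_univ] at this
    have d5 : (δ / 8) ^ Fintype.card ι / kap ≤ (δ / 8 / kap) ^ Fintype.card ι := by
      rw [div_pow (δ / 8)]
      have d6 : kap ^ Fintype.card ι ≤ kap := pow_le_of_le_one hk0.le hk1 Fintype.card_ne_zero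
      have d7 : 0 ≤ (δ / 8) ^ Fintype.card ι := by positivity
      exact div_le_div_of_nonneg_left d7 (pow_pos hk0 _) d6
    calc (δ / 8) ^ (Fintype.card ι + Fintype.card ρ) / kap
        = (δ / 8) ^ Fintype.card ι / kap * (δ / 8) ^ Fintype.card ρ := by
          rw [pow_add]
          ring
      _ ≤ _ := mul_le_mul (d5.trans d3) d4 (by positivity)
          (prod_nonneg fun i _ => cd_nonneg' (FA_nonneg' z A) _ _ _)
  have hsum : (R.card : ℝ) * ((δ / 8) ^ (Fintype.card ι + Fintype.card ρ) / kap) ≤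
      ∑ x ∈ range (2 ^ z), (∏ i, cd F M' (b i) (x + v i)) * ∏ j, AN (L j) F (x + w j) := by
    rw [← nsmul_eq_mul]
    refine (card_nsmul_le_sum _ _ _ hpt).trans ?_
    refine sum_le_sum_of_subset_of_nonneg ?_ fun x _ _ => ?_
    · intro x hx
      rw [hR, mem_sdiff, hGd, gset, mem_filter] at hx
      exact hx.1.1
    · exact mul_nonneg (prod_nonneg fun i _ => cd_nonneg' (FA_nonneg' z A) _ _ _)
        (prod_nonneg fun j _ => AN_nonneg' (FA_nonneg' z A) _ _)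
  rw [le_div_iff₀ hZ]
  refine le_trans ?_ hsum
  calc τ1 * 2 ^ z = ω * δ ^ 2 / 2 * kap * 2 ^ z *
        ((δ / 8) ^ (Fintype.card ι + Fintype.card ρ) / kap) := by
        rw [hτ]
        field_simp
    _ ≤ _ := mul_le_mul_of_nonneg_right hRc (by positivity)

end

end Pool.Agent.Helper82.NX3
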